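import Mathlib
import Pool.Agent.W275.UB.Den

/-!
# Uniqueness of roots near a simple root, and the relations between the integral roots
-/

set_option autoImplicit false

namespace Pool.Agent.W439.UB.Rel

open MvPolynomial Pool.Agent.W275.UB

theorem uniq : S_uniq := by
  intro R _ P y z hn hy hz hu
  obtain ⟨r, hr⟩ := P.binomExpansion y (z - y)
  have h1 : y + (z - y) = z := by ring
  rw [h1, hy, hz] at hr
  have hn' : IsNilpotent (r * (z - y)) := by
    have : r * (z - y) = (y - z) * (-r) := by ring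
    rw [this]
    exact (Commute.all _ _).isNilpotent_mul_right hn
  have hu' : IsUnit (P.derivative.eval y + r * (z - y)) :=
    hn'.isUnit_add_left_of_commute hu (Commute.all _ _)
  have h2 : (P.derivative.eval y + r * (z - y)) * (z - y) = 0 := by
    linear_combination -hr
  have h3 := (hu'.mul_right_eq_zero).1 h2
  have := sub_eq_zero.1 h3
  exact this.symm

section aux

variable {R ι : Type} [CommRing R]

theorem dvd_eval_sub (c : R) (s : ι → R) (hs : ∀ i, c ∣ s i) (q : MvPolynomial ι R) :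
    c ∣ eval s q - constantCoeff q := by
  induction q using MvPolynomial.induction_on with
  | C a => simp
  | add p q hp hq =>
    have h := dvd_add hp hq
    simp only [map_add]
    convert h using 1
    ring
  | mul_X p i _ =>
    simp only [map_mul, eval_X, constantCoeff_X, mul_zero, sub_zero]
    exact Dvd.dvd.mul_left (hs i) _

theorem eval_eq_zero [Fintype ι] (c : R) (k : ℕ) (hc : c ^ (k + 1) = 0) (u : ι → R)
    (F : MvPolynomial ι R) (hF : ∀ μ : ι →₀ ℕ, μ.degree ≤ k → coeff μ F = 0) :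
    eval (fun i => c * u i) F = 0 := by
  rw [eval_eq']
  refine Finset.sum_eq_zero fun μ _ => ?_
  by_cases h : μ.degree ≤ k
  · rw [hF μ h, zero_mul]
  · have h1 : ∏ i, (c * u i) ^ μ i = 0 := by
      have h2 : ∏ i, (c * u i) ^ μ i = c ^ (∑ i, μ i) * ∏ i, u i ^ μ i := by
        rw [← Finset.prod_pow_eq_pow_sum, ← Finset.prod_mul_distrib]
        exact Finset.prod_congr rfl fun i _ => mul_pow _ _ _
      have h3 : k + 1 ≤ ∑ i, μ i := by
        have : μ.degree = ∑ i, μ i := Finsupp.degree_eq_sum μ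
        omega
      rw [h2, pow_eq_zero_of_le h3 hc, zero_mul]
    rw [h1, mul_zero]

theorem totalDegree_shift [Fintype ι] (c : R) (b : ι → R) (q : MvPolynomial ι R) :
    (bind₁ (fun i => C c * (X i - C (b i))) q).totalDegree ≤ q.totalDegree := by
  rcases subsingleton_or_nontrivial R with h | h
  · rw [Subsingleton.elim (bind₁ (fun i => C c * (X i - C (b i))) q) q]
  have h0 : bind₁ (fun i => C c * (X i - C (b i))) q =
      ∑ μ ∈ q.support, C (coeff μ q) * ∏ i, (C c * (X i - C (b i))) ^ μ i := by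
    have h1 : bind₁ (fun i => C c * (X i - C (b i))) q =
        eval₂ (algebraMap R (MvPolynomial ι R)) (fun i => C c * (X i - C (b i))) q := rfl
    rw [h1, eval₂_eq']
    rfl
  rw [h0]
  refine totalDegree_finsetSum_le fun μ hμ => ?_
  refine (totalDegree_mul _ _).trans ?_
  rw [totalDegree_C, zero_add]
  refine (totalDegree_finsetProd _ _).trans ?_
  refine le_trans (Finset.sum_le_sum (g := fun i => μ i) fun i _ => ?_) ?_
  · refine (totalDegree_pow _ _).trans ?_
    refine (Nat.mul_le_mul_left _ (m := 1) ?_).trans (by simp)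
    refine (totalDegree_mul _ _).trans ?_
    rw [totalDegree_C, zero_add]
    refine (totalDegree_sub _ _).trans ?_
    simp
  · have := le_totalDegree hμ
    refine le_trans (le_of_eq ?_) this
    rw [Finsupp.sum_fintype _ _ (fun _ => rfl)]

theorem sum_eq_zero [Fintype ι] (k : ℕ) (Θ : Finset (ι → ℤ)) (l : (ι → ℤ) → ℤ)
    (hl : ∀ μ : ι →₀ ℕ, μ.degree ≤ k → ∑ t ∈ Θ, l t * ∏ i, t i ^ μ i = 0)
    (f : MvPolynomial ι R) (hf : f.totalDegree ≤ k) :
    ∑ t ∈ Θ, (l t : R) * eval (fun i => (t i : R)) f = 0 := by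
  have h1 : ∀ t ∈ Θ, (l t : R) * eval (fun i => (t i : R)) f =
      ∑ μ ∈ f.support, coeff μ f * ((l t * ∏ i, t i ^ μ i : ℤ) : R) := by
    intro t _
    rw [eval_eq', Finset.mul_sum]
    refine Finset.sum_congr rfl fun μ _ => ?_
    push_cast
    ring
  rw [Finset.sum_congr rfl h1, Finset.sum_comm]
  refine Finset.sum_eq_zero fun μ hμ => ?_
  rw [← Finset.mul_sum, ← Int.cast_sum, hl μ, Int.cast_zero, mul_zero]
  have h2 := le_totalDegree hμ
  rw [Finsupp.sum_fintype _ _ (fun _ => rfl)] at h2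
  rw [Finsupp.degree_eq_sum]
  omega

/-- the specialised polynomial -/
theorem map_eval_cast [Fintype ι] (G : Polynomial (MvPolynomial ι ℤ)) (b : ι → ℤ) (τ : ℤ) :
    (G.map ((Int.castRingHom R).comp (eval b))).eval (τ : R) =
      (((G.map (eval b)).eval τ : ℤ) : R) := by
  rw [← Polynomial.map_map]
  exact Polynomial.eval_intCast_map (Int.castRingHom R) _ τ

end aux

theorem core (hN : S_newton) {R : Type} [CommRing R] {ι : Type} [Fintype ι]
    (P : Polynomial (MvPolynomial ι ℤ)) (p N k : ℕ) (hN1 : 1 ≤ N)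
    (hpE : (p : R) ^ (N * (k + 1)) = 0) (hunit : ∀ D : ℤ, ¬ (p : ℤ) ∣ D → IsUnit (D : R))
    (a : ι → ℤ) (Θ : Finset (ι → ℤ)) (T l : (ι → ℤ) → ℤ)
    (hroot : ∀ t ∈ Θ, (P.map (eval fun i => a i + (p : ℤ) ^ N * t i)).eval (T t) = 0)
    (hder : ∀ t ∈ Θ, ¬ (p : ℤ) ∣ ((Polynomial.derivative P).map
      (eval fun i => a i + (p : ℤ) ^ N * t i)).eval (T t))
    (hcong : ∀ t ∈ Θ, ∀ t' ∈ Θ, (p : ℤ) ∣ T t - T t')
    (hl : ∀ μ : ι →₀ ℕ, μ.degree ≤ k → ∑ t ∈ Θ, l t * ∏ i, t i ^ μ i = 0)
    (t0 : ι → ℤ) (ht0 : t0 ∈ Θ) : ((∑ t ∈ Θ, l t * T t : ℤ) : R) = 0 := by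
  have hpnil : IsNilpotent (p : R) := ⟨_, hpE⟩
  set a' : ι → ℤ := fun i => a i + (p : ℤ) ^ N * t0 i with ha'
  let φ : MvPolynomial ι ℤ →+* MvPolynomial ι R :=
    eval₂Hom (Int.castRingHom _) (fun i => C (a' i : R) + X i)
  have hφ : ∀ t : ι → ℤ, (eval (fun i => (p : R) ^ N * ((t i : R) - (t0 i : R)))).comp φ =
      (Int.castRingHom R).comp (eval fun i => a i + (p : ℤ) ^ N * t i) := by
    intro t
    refine MvPolynomial.ringHom_ext (fun r => by simp [φ]) fun i => ?_
    simp only [φ, RingHom.coe_comp, Function.comp_apply, eval₂Hom_X', map_add, eval_C, eval_X,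
      ha', eq_intCast, Int.cast_add, Int.cast_mul, Int.cast_pow, Int.cast_natCast]
    ring
  have hφ0 : (constantCoeff (R := R)).comp φ = (Int.castRingHom R).comp (eval a') := by
    refine MvPolynomial.ringHom_ext (fun r => by simp [φ]) fun i => ?_
    simp [φ]
  obtain ⟨q, hq0, hqk, hq⟩ := hN R ι (P.map φ) (T t0 : R)
    (by
      rw [Polynomial.map_map, hφ0, map_eval_cast, hroot t0 ht0, Int.cast_zero])
    (by
      rw [Polynomial.derivative_map, Polynomial.map_map, hφ0, map_eval_cast]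
      exact hunit _ (hder t0 ht0)) k
  have hpk : ((p : R) ^ N) ^ (k + 1) = 0 := by rw [← pow_mul, hpE]
  have key : ∀ t ∈ Θ, (T t : R) =
      eval (fun i => (p : R) ^ N * ((t i : R) - (t0 i : R))) q := by
    intro t ht
    set s : ι → R := fun i => (p : R) ^ N * ((t i : R) - (t0 i : R)) with hs
    have h1 : eval s ((P.map φ).eval q) = 0 :=
      eval_eq_zero _ k hpk _ _ hq
    have h2 : (P.map ((Int.castRingHom R).comp
        (eval fun i => a i + (p : ℤ) ^ N * t i))).eval (eval s q) = 0 := by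
      rw [← hφ t, ← Polynomial.map_map, ← h1]
      rw [Polynomial.eval_map, Polynomial.eval₂_hom]
    refine uniq R (P.map ((Int.castRingHom R).comp
        (eval fun i => a i + (p : ℤ) ^ N * t i))) _ _ ?_ ?_ h2 ?_
    · have h3 : (p : R) ∣ (T t : R) - eval s q := by
        have h4 : (p : R) ∣ eval s q - constantCoeff q := by
          refine dvd_eval_sub _ _ (fun i => ?_) q
          exact Dvd.dvd.mul_right (dvd_pow_self _ (by omega)) _
        have h5 : (p : R) ∣ ((T t - T t0 : ℤ) : R) := by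
          obtain ⟨w, hw⟩ := hcong t ht t0 ht0
          refine ⟨(w : R), ?_⟩
          rw [hw]
          push_cast
          rfl
        rw [hq0] at h4
        have h6 := dvd_sub h5 h4
        convert h6 using 1
        push_cast
        ring
      obtain ⟨w, hw⟩ := h3
      rw [hw]
      exact (Commute.all _ _).isNilpotent_mul_right hpnil
    · rw [map_eval_cast, hroot t ht, Int.cast_zero]
    · rw [Polynomial.derivative_map, map_eval_cast]
      exact hunit _ (hder t ht)
  have h8 := sum_eq_zero (R := R) k Θ l hl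
    (bind₁ (fun i => C ((p : R) ^ N) * (X i - C (t0 i : R))) q)
    ((totalDegree_shift _ _ _).trans hqk)
  push_cast
  rw [← h8]
  refine Finset.sum_congr rfl fun t ht => ?_
  rw [key t ht]
  congr 1
  rw [← MvPolynomial.coe_aeval_eq_eval, ← MvPolynomial.coe_aeval_eq_eval]
  simp only [RingHom.coe_coe]
  rw [aeval_bind₁]
  simp

theorem main (hN : S_newton) : S_rel := by
  intro ι _ P p N k hp hN1 a Θ T l hroot hder hcong hl
  rcases Θ.eq_empty_or_nonempty with rfl | ⟨t0, ht0⟩
  · simp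
  have hE1 : N * (k + 1) ≠ 0 := by positivity
  have hpE : (p : ZMod (p ^ (N * (k + 1)))) ^ (N * (k + 1)) = 0 := by
    have : ((p ^ (N * (k + 1)) : ℕ) : ZMod (p ^ (N * (k + 1)))) = 0 := ZMod.natCast_self _
    rwa [Nat.cast_pow] at this
  have hunit : ∀ D : ℤ, ¬ (p : ℤ) ∣ D → IsUnit (D : ZMod (p ^ (N * (k + 1)))) := by
    intro D hD
    rw [ZMod.coe_int_isUnit_iff_isCoprime]
    push_cast
    exact ((Nat.prime_iff_prime_int.1 hp).coprime_iff_not_dvd.2 hD).pow_left
  have h7 := core hN P p N k hN1 hpE hunit a Θ T l hroot hder hcong hl t0 ht0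
  have h9 := (ZMod.intCast_zmod_eq_zero_iff_dvd _ _).1 h7
  rw [Nat.cast_pow] at h9
  exact h9

end Pool.Agent.W439.UB.Rel
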